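import Pool.Agent.Y162.GQ.Gen

/-!
# Quadratic algebras with given coefficients; the count over finite fields
-/

set_option autoImplicit false

namespace Pool.Agent.Y162.GQ

open Pool.Agent.TH40.Quad MvPolynomial

universe u

section
variable {K : Type u} [Field K] {n d : ℕ}

/-- the `k`-th quadratic relation with coefficients `c` -/
noncomputable def quad (c : Fin d × Fin n × Fin n → K) (k : Fin d) : FreeAlgebra K (Fin n) :=
  ∑ i, ∑ j, c (k, i, j) • (FreeAlgebra.ι K i * FreeAlgebra.ι K j)

/-- all relations are set to zero -/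
def Rel (c : Fin d × Fin n × Fin n → K) (x y : FreeAlgebra K (Fin n)) : Prop :=
  ∃ k, x = quad c k ∧ y = 0

/-- the quadratic algebra with relations `quad c k`, `k < d`, is finite dimensional, and all
products of `N` generators vanish in it -/
def NilAlg (N : ℕ) (c : Fin d × Fin n × Fin n → K) : Prop :=
  FiniteDimensional K (RingQuot (Rel c)) ∧
    ∀ w : Fin N → Fin n, RingQuot.mkAlgHom K (Rel c)
      (List.ofFn fun s => FreeAlgebra.ι K (w s)).prod = 0

theorem nilAlg_of_nil (N : ℕ) (c : Fin d × Fin n × Fin n → K)
    (hN : Nil (fun k i j => c (k, i, j)) N) : NilAlg N c := by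
  refine ⟨fd_of_nil n (fun k i j => c (k, i, j)) N hN, ?_⟩
  let π : FreeAlgebra K (Fin n) →ₐ[K] RingQuot (Rel c) := RingQuot.mkAlgHom K (Rel c)
  let wd : List (Fin n) → RingQuot (Rel c) := fun l => π ((l.map (FreeAlgebra.ι K)).prod)
  have hrelz : ∀ k, π (quad c k) = 0 := by
    intro k
    have : π (quad c k) = π 0 := RingQuot.mkAlgHom_rel K ⟨k, rfl, rfl⟩
    rw [this, map_zero]
  have hwd : ∀ l l', wd (l ++ l') = wd l * wd l' := by
    intro l l'
    simp [wd]
  have hcons : ∀ x l, wd (x :: l) = π (FreeAlgebra.ι K x) * wd l := by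
    intro x l
    simp [wd]
  have hzero : ∀ l : List (Fin n), l.length = N → wd l = 0 := by
    intro l hl
    rw [← Module.forall_dual_apply_eq_zero_iff K]
    intro φ
    refine hN (fun l => φ (wd l)) ?_ l hl
    intro k l₁ l₂ _
    have h1 : ∀ i j, φ (wd (l₁ ++ i :: j :: l₂)) =
        (φ.comp ((LinearMap.mulLeft K (wd l₁)).comp ((LinearMap.mulRight K (wd l₂)).comp
          π.toLinearMap))) (FreeAlgebra.ι K i * FreeAlgebra.ι K j) := by
      intro i j
      rw [hwd, hcons, hcons]
      simp [mul_assoc]
    have h2 : ev (V := K) (fun i j => c (k, i, j)) (fun i j => φ (wd (l₁ ++ i :: j :: l₂))) =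
        (φ.comp ((LinearMap.mulLeft K (wd l₁)).comp ((LinearMap.mulRight K (wd l₂)).comp
          π.toLinearMap))) (quad c k) := by
      change _ = (φ.comp ((LinearMap.mulLeft K (wd l₁)).comp ((LinearMap.mulRight K (wd l₂)).comp
          π.toLinearMap))) (ev (fun i j => c (k, i, j))
            (fun i j => FreeAlgebra.ι K i * FreeAlgebra.ι K j))
      rw [ev_map]
      exact ev_congr _ _ _ h1
    rw [h2]
    simp [hrelz]
  intro w
  have h3 := hzero (List.ofFn w) (by simp)
  have h4 : (List.ofFn w).map (FreeAlgebra.ι K) = List.ofFn fun s => FreeAlgebra.ι K (w s) := by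
    rw [List.map_ofFn]
    rfl
  change π ((List.ofFn fun s => FreeAlgebra.ι K (w s)).prod) = 0
  rw [← h4]
  exact h3

/-- a nil family may be completed to a linearly independent one -/
theorem family_of_nil (R : Fin d → Fin n → Fin n → K) (N : ℕ) (hN : Nil R N) :
    ∃ R' : Fin d → Fin n → Fin n → K, (d ≤ n ^ 2 → LinearIndependent K R') ∧ Nil R' N := by
  by_cases hdn : d ≤ n ^ 2
  · have hfr : Module.finrank K (Fin n → Fin n → K) = n ^ 2 := by
      rw [Module.finrank_pi_fintype]
      simp [pow_two]
    have hW : Module.finrank K (Submodule.span K (Set.range R)) ≤ d :=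
      (finrank_range_le_card R).trans (by simp)
    obtain ⟨W, hW1, hW2⟩ := exists_enlarge (Submodule.span K (Set.range R)) d hW
      (by rw [hfr]; exact hdn)
    let b := Module.finBasisOfFinrankEq K W hW2
    refine ⟨fun k => (b k : Fin n → Fin n → K), fun _ => ?_, ?_⟩
    · exact b.linearIndependent.map' W.subtype (Submodule.ker_subtype W)
    · refine nil_of_span R _ N hN (fun k => ?_)
      have h1 : R k ∈ W := hW1 (Submodule.subset_span ⟨k, rfl⟩)
      have h2 : Submodule.span K (Set.range (fun k => (b k : Fin n → Fin n → K))) = W := by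
        have := b.span_eq
        have h3 := congrArg (Submodule.map W.subtype) this
        rw [Submodule.map_span, Submodule.map_top, Submodule.range_subtype, ← Set.range_comp] at h3
        exact h3
      rw [h2]; exact h1
  · exact ⟨R, fun h => absurd h hdn, hN⟩

end

/-- the zeros of a nonzero polynomial over a finite field -/
theorem sz {K : Type u} [Field K] [Finite K] {σ : Type} [Fintype σ] (P : MvPolynomial σ K)
    (hP : P ≠ 0) : Nat.card {c : σ → K // eval c P = 0} * Nat.card K ≤
      P.totalDegree * Nat.card (σ → K) := by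
  classical
  have : Fintype K := Fintype.ofFinite K
  let e : σ ≃ Fin (Fintype.card σ) := Fintype.equivFin σ
  have hP' : rename e P ≠ 0 := by
    intro h
    exact hP (rename_injective e e.injective (by rw [h, map_zero]))
  have h1 := schwartz_zippel_totalDegree hP' (Finset.univ : Finset K)
  have h2 : (rename e P).totalDegree = P.totalDegree := totalDegree_renameEquiv e P
  have h3 : Nat.card {c : σ → K // eval c P = 0} =
      (Finset.filter (fun f : Fin (Fintype.card σ) → K => eval f (rename e P) = 0)
        (Fintype.piFinset fun _ => (Finset.univ : Finset K))).card := by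
    rw [← Fintype.card_coe, ← Nat.card_eq_fintype_card]
    refine Nat.card_congr ((Equiv.arrowCongr e (Equiv.refl K)).subtypeEquiv fun c => ?_)
    have h4 : (((Equiv.arrowCongr e (Equiv.refl K)) c : Fin (Fintype.card σ) → K) ∘ e) = c := by
      funext x
      simp
    simp only [Finset.mem_filter, Fintype.mem_piFinset, Finset.mem_univ, implies_true, true_and,
      eval_rename, h4]
  rw [h2] at h1
  have hq : 0 < Fintype.card K := Fintype.card_pos
  rw [← h3, Finset.card_univ] at h1
  rw [div_le_div_iff₀ (by positivity) (by exact_mod_cast hq)] at h1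
  have h5 : Nat.card (σ → K) = Fintype.card K ^ Fintype.card σ := by
    rw [Nat.card_eq_fintype_card, Fintype.card_fun]
  rw [h5, Nat.card_eq_fintype_card (α := K)]
  exact_mod_cast h1

end Pool.Agent.Y162.GQ
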