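import Mathlib
import Pool.Agent.TH40.QuadI

/-!
# Nilpotency of quadratic algebras as the non-vanishing of a minor, uniformly over all fields
-/

set_option autoImplicit false

namespace Pool.Agent.Y162.GQ

open Pool.Agent.TH40.Quad MvPolynomial

universe u

/-- words of length `N` -/
abbrev W (n N : ℕ) : Type := {l : List (Fin n) // l.length = N}

/-- a relation and a place in a word of length `N` -/
abbrev Row (n d N : ℕ) : Type :=
  Fin d × {p : List (Fin n) × List (Fin n) // p.1.length + p.2.length + 2 = N}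

/-- the variables: coefficients of `d` quadratic relations -/
abbrev Var (n d : ℕ) : Type := Fin d × Fin n × Fin n

instance finW (n N : ℕ) : Finite (W n N) := (List.finite_length_eq (Fin n) N).to_subtype

instance finRow (n d N : ℕ) : Finite (Row n d N) := by
  have h1 : ({p : List (Fin n) × List (Fin n) | p.1.length + p.2.length + 2 = N}).Finite := by
    refine ((List.finite_length_le (Fin n) N).prod (List.finite_length_le (Fin n) N)).subset ?_
    rintro ⟨a, b⟩ h
    simp only [Set.mem_ofPred_eq, Set.mem_prod] at h ⊢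
    omega
  have : Finite {p : List (Fin n) × List (Fin n) // p.1.length + p.2.length + 2 = N} :=
    h1.to_subtype
  infer_instance

noncomputable instance ftW (n N : ℕ) : Fintype (W n N) := Fintype.ofFinite _

noncomputable instance deW (n N : ℕ) : DecidableEq (W n N) := Classical.decEq _

/-- the entries of the matrix of all relations in degree `N` -/
def ent {A : Type u} [AddCommMonoid A] {n d N : ℕ} (c : Fin d → Fin n → Fin n → A) (ρ : Row n d N)
    (w : W n N) : A :=
  ∑ i, ∑ j, if w.1 = ρ.2.1.1 ++ i :: j :: ρ.2.1.2 then c ρ.1 i j else 0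

theorem map_ent {A B : Type u} [Semiring A] [Semiring B] (φ : A →+* B) {n d N : ℕ}
    (c : Fin d → Fin n → Fin n → A) (ρ : Row n d N) (w : W n N) :
    φ (ent c ρ w) = ent (fun k i j => φ (c k i j)) ρ w := by
  unfold ent
  rw [map_sum]
  refine Finset.sum_congr rfl fun i _ => ?_
  rw [map_sum]
  refine Finset.sum_congr rfl fun j _ => ?_
  split_ifs
  · rfl
  · exact map_zero φ

/-- the minor belonging to a choice of rows -/
noncomputable def mdet {A : Type u} [CommRing A] {n d N : ℕ} (c : Fin d → Fin n → Fin n → A)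
    (e : W n N → Row n d N) : A :=
  Matrix.det (Matrix.of fun w w' => ent c (e w) w')

theorem map_mdet {A B : Type u} [CommRing A] [CommRing B] (φ : A →+* B) {n d N : ℕ}
    (c : Fin d → Fin n → Fin n → A) (e : W n N → Row n d N) :
    φ (mdet c e) = mdet (fun k i j => φ (c k i j)) e := by
  unfold mdet
  rw [RingHom.map_det]
  congr 1
  ext w w'
  exact map_ent φ c (e w) w'

section field
variable {K : Type u} [Field K] {n d N : ℕ}

theorem sum_ent (c : Fin d → Fin n → Fin n → K) (ρ : Row n d N) (f : List (Fin n) → K) :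
    ∑ w : W n N, ent c ρ w * f w.1 =
      ev (V := K) (c ρ.1) (fun i j => f (ρ.2.1.1 ++ i :: j :: ρ.2.1.2)) := by
  unfold ent ev
  simp_rw [Finset.sum_mul]
  rw [Finset.sum_comm]
  refine Finset.sum_congr rfl fun i _ => ?_
  rw [Finset.sum_comm]
  refine Finset.sum_congr rfl fun j _ => ?_
  have hl : (ρ.2.1.1 ++ i :: j :: ρ.2.1.2).length = N := by
    have := ρ.2.2
    simp only [List.length_append, List.length_cons]
    omega
  rw [Finset.sum_eq_single (⟨ρ.2.1.1 ++ i :: j :: ρ.2.1.2, hl⟩ : W n N)]
  · simp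
  · intro w _ hw
    rw [if_neg, zero_mul]
    intro h
    exact hw (Subtype.ext h)
  · intro h
    exact absurd (Finset.mem_univ _) h

/-- a nonzero minor makes the algebra nilpotent -/
theorem nil_of_det (c : Fin d → Fin n → Fin n → K) (e : W n N → Row n d N) (h : mdet c e ≠ 0) :
    Nil c N := by
  intro f hf l hl
  have h1 : (Matrix.of fun w w' => ent c (e w) w').mulVec (fun w : W n N => f w.1) = 0 := by
    funext w
    change ∑ w' : W n N, ent c (e w) w' * f w'.1 = 0
    rw [sum_ent]
    exact hf _ _ _ (e w).2.2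
  have h2 := Matrix.eq_zero_of_mulVec_eq_zero h h1
  exact congrFun h2 ⟨l, hl⟩

/-- a nilpotent algebra has a nonzero minor -/
theorem det_of_nil (c : Fin d → Fin n → Fin n → K) (h : Nil c N) :
    ∃ e : W n N → Row n d N, mdet c e ≠ 0 := by
  have hspan : Submodule.span K (Set.range fun ρ : Row n d N => (ent c ρ : W n N → K)) = ⊤ := by
    by_contra hne
    obtain ⟨f, hf0, hf⟩ := Submodule.exists_le_ker_of_lt_top _ (lt_top_iff_ne_top.2 hne)
    apply hf0
    have hφ : ∀ l, l.length = N → (fun l : List (Fin n) => if hl : l.length = N then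
        f (Pi.single (⟨l, hl⟩ : W n N) 1) else 0) l = 0 := by
      refine h _ ?_
      intro k l₁ l₂ h12
      have h1 := sum_ent c (⟨k, ⟨(l₁, l₂), h12⟩⟩ : Row n d N)
        (fun l : List (Fin n) => if hl : l.length = N then
          f (Pi.single (⟨l, hl⟩ : W n N) 1) else 0)
      refine h1.symm.trans ?_
      have h2 : f (ent c (⟨k, ⟨(l₁, l₂), h12⟩⟩ : Row n d N) : W n N → K) = 0 :=
        hf (Submodule.subset_span ⟨_, rfl⟩)
      rw [← h2]
      have h3 := congrArg f (pi_eq_sum_univ' (ent c (⟨k, ⟨(l₁, l₂), h12⟩⟩ : Row n d N) : W n N → K))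
      rw [h3, map_sum]
      refine Finset.sum_congr rfl fun w _ => ?_
      rw [map_smul, smul_eq_mul]
      congr 1
      rw [dif_pos w.2]
    refine LinearMap.pi_ext' fun w => ?_
    refine LinearMap.ext_ring ?_
    have := hφ w.1 w.2
    simp only [dif_pos w.2] at this
    simpa using this
  obtain ⟨κ, a, -, ha2, ha3⟩ := exists_linearIndependent' K
    (fun ρ : Row n d N => (ent c ρ : W n N → K))
  rw [hspan] at ha2
  let B : Module.Basis κ K (W n N → K) := Module.Basis.mk ha3 ha2.ge
  let E : W n N ≃ κ := (Pi.basisFun K (W n N)).indexEquiv B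
  refine ⟨fun w => a (E w), ?_⟩
  have h1 : LinearIndependent K (Matrix.of fun w w' => ent c (a (E w)) w').row :=
    ha3.comp E E.injective
  have h2 := (Matrix.isUnit_iff_isUnit_det _).1 (Matrix.linearIndependent_rows_iff_isUnit.1 h1)
  exact h2.ne_zero

theorem nil_succ (c : Fin d → Fin n → Fin n → K) (h : Nil c N) : Nil c (N + 1) := by
  intro f hf l hl
  match l, hl with
  | x :: l, hl =>
    refine h (fun l => f (x :: l)) (fun k l₁ l₂ h12 => ?_) l (by simpa using hl)
    have := hf k (x :: l₁) l₂ (by simp only [List.length_cons]; omega)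
    simpa using this

theorem nil_mono (c : Fin d → Fin n → Fin n → K) (h : Nil c N) {M : ℕ} (hM : N ≤ M) : Nil c M := by
  obtain ⟨m, rfl⟩ := Nat.exists_eq_add_of_le hM
  clear hM
  induction m with
  | zero => exact h
  | succ m ih => exact nil_succ c ih

theorem nil_scale (c : Fin d → Fin n → Fin n → K) (h : Nil c N) (m : K) (hm : m ≠ 0) :
    Nil (fun k i j => m * c k i j) N := by
  intro f hf
  refine h f (fun k l₁ l₂ h12 => ?_)
  have h1 := hf k l₁ l₂ h12
  have h2 : ev (V := K) (fun i j => m * c k i j) (fun i j => f (l₁ ++ i :: j :: l₂)) =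
      m * ev (V := K) (c k) (fun i j => f (l₁ ++ i :: j :: l₂)) := by
    unfold ev
    simp only [smul_eq_mul, mul_assoc, Finset.mul_sum]
  rw [h2] at h1
  exact (mul_eq_zero.1 h1).resolve_left hm

end field

/-- the nilpotency index may be chosen independently of the field -/
theorem uniform (n d : ℕ) (h : n ^ 2 < 4 * d) :
    ∃ N : ℕ, ∀ (K : Type u) [Field K], ∃ R : Fin d → Fin n → Fin n → K, Nil R N := by
  obtain ⟨R0, N0, -, hN0⟩ := exists_family (K := ℚ) n d h
  obtain ⟨m, hm⟩ := IsLocalization.exist_integer_multiples_of_finite (nonZeroDivisors ℤ)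
    (fun x : Var n d => R0 x.1 x.2.1 x.2.2)
  choose Z hZ using hm
  have hm0 : ((m : ℤ) : ℚ) ≠ 0 := by
    exact_mod_cast nonZeroDivisors.coe_ne_zero m
  have hZ' : (fun k i j => ((Z (k, i, j) : ℤ) : ℚ)) =
      fun k i j => ((m : ℤ) : ℚ) * R0 k i j := by
    funext k i j
    have := hZ (k, i, j)
    simpa [zsmul_eq_mul] using this
  have h1 : Nil (fun k i j => ((Z (k, i, j) : ℤ) : ℚ)) N0 := by
    rw [hZ']
    exact nil_scale R0 hN0 _ hm0
  obtain ⟨e0, he0⟩ := det_of_nil _ h1
  obtain ⟨a, ha⟩ : ∃ a : ℤ, a = mdet (fun k i j => Z (k, i, j)) e0 := ⟨_, rfl⟩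
  have hmap : ∀ (K : Type u) [Field K], ((a : ℤ) : K) =
      mdet (fun k i j => ((Z (k, i, j) : ℤ) : K)) e0 := by
    intro K _
    unfold mdet
    rw [ha]
    unfold mdet
    have h3 := RingHom.map_det (Int.castRingHom K)
      (Matrix.of fun w w' => ent (fun k i j => Z (k, i, j)) (e0 w) w')
    refine h3.trans ?_
    congr 1
    ext w w'
    change ((ent (fun k i j => Z (k, i, j)) (e0 w) w' : ℤ) : K) = _
    unfold ent
    push_cast
    rfl
  have ha0 : a ≠ 0 := by
    intro h0
    apply he0
    have h3 := map_mdet (Int.castRingHom ℚ) (fun k i j => Z (k, i, j)) e0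
    have h4 : (Int.castRingHom ℚ) (mdet (fun k i j => Z (k, i, j)) e0) = 0 := by
      rw [← ha, h0]; simp
    rw [h4] at h3
    exact h3.symm
  have hp : ∀ p : ℕ, ∃ M : ℕ, p.Prime → ∀ (K : Type u) [Field K] [CharP K p],
      ∃ R : Fin d → Fin n → Fin n → K, Nil R M := by
    intro p
    by_cases hpp : p.Prime
    · have : Fact p.Prime := ⟨hpp⟩
      obtain ⟨Rp, Np, -, hNp⟩ := exists_family (K := ZMod p) n d h
      refine ⟨Np, fun _ K _ _ => ?_⟩
      obtain ⟨e, he⟩ := det_of_nil _ hNp
      refine ⟨fun k i j => ZMod.castHom dvd_rfl K (Rp k i j), nil_of_det _ e ?_⟩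
      have h3 : ZMod.castHom dvd_rfl K (mdet Rp e) =
          mdet (fun k i j => ZMod.castHom dvd_rfl K (Rp k i j)) e := by
        unfold mdet
        rw [RingHom.map_det]
        congr 1
        ext w w'
        change ZMod.castHom dvd_rfl K (ent Rp (e w) w') = _
        unfold ent
        rw [map_sum]
        refine Finset.sum_congr rfl fun i _ => ?_
        rw [map_sum]
        refine Finset.sum_congr rfl fun j _ => ?_
        split_ifs
        · rfl
        · exact map_zero _
      rw [← h3]
      exact (map_ne_zero_iff _ (ZMod.castHom dvd_rfl K).injective).2 he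
    · exact ⟨0, fun h => absurd h hpp⟩
  choose M hM using hp
  refine ⟨N0 + ∑ p ∈ a.natAbs.primeFactors, M p, fun K _ => ?_⟩
  by_cases hK : ((a : ℤ) : K) = 0
  · have hdvd : (ringChar K : ℤ) ∣ a := (CharP.intCast_eq_zero_iff K (ringChar K) a).1 hK
    have hne : ringChar K ≠ 0 := by
      intro h0
      rw [h0] at hdvd
      exact ha0 (by simpa using hdvd)
    have hpr : (ringChar K).Prime := by
      rcases CharP.char_is_prime_or_zero K (ringChar K) with h4 | h4
      · exact h4
      · exact absurd h4 hne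
    obtain ⟨R, hR⟩ := hM (ringChar K) hpr K
    refine ⟨R, nil_mono R hR ?_⟩
    have h5 : ringChar K ∈ a.natAbs.primeFactors := by
      rw [Nat.mem_primeFactors]
      exact ⟨hpr, Int.natCast_dvd.1 hdvd, Int.natAbs_ne_zero.2 ha0⟩
    have h6 : M (ringChar K) ≤ ∑ p ∈ a.natAbs.primeFactors, M p :=
      Finset.single_le_sum (f := M) (fun _ _ => Nat.zero_le _) h5
    omega
  · refine ⟨fun k i j => ((Z (k, i, j) : ℤ) : K), nil_mono _ (nil_of_det _ e0 ?_)
      (Nat.le_add_right _ _)⟩
    rw [← hmap K]
    exact hK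

end Pool.Agent.Y162.GQ
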