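import Pool.Agent.Y162.GQ.Det

/-!
# One integral polynomial for all fields
-/

set_option autoImplicit false

namespace Pool.Agent.Y162.GQ

open Pool.Agent.TH40.Quad MvPolynomial

universe u

/-- reduction of an integral polynomial modulo `p` -/
noncomputable def red {σ : Type} (p : ℕ) (P : MvPolynomial σ ℤ) : MvPolynomial σ (ZMod p) :=
  P.map (Int.castRingHom (ZMod p))

theorem comb2 {σ : Type} (x0 : σ) (P Q : MvPolynomial σ ℤ) : ∃ R : MvPolynomial σ ℤ,
    (∀ p : ℕ, p.Prime → (red p P ≠ 0 ∨ red p Q ≠ 0) → red p R ≠ 0) ∧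
    ∀ (K : Type u) [Field K] (c : σ → K), aeval c R ≠ 0 → aeval c P ≠ 0 ∨ aeval c Q ≠ 0 := by
  classical
  refine ⟨P + Q * X x0 ^ (degreeOf x0 P + 1), ?_, ?_⟩
  · intro p hp hPQ h0
    have : Fact p.Prime := ⟨hp⟩
    have h1 : red p P + red p Q * X x0 ^ (degreeOf x0 P + 1) = 0 := by
      rw [← h0]
      unfold red
      simp
    have h2 : degreeOf x0 (red p P) ≤ degreeOf x0 P := by
      rw [degreeOf_eq_sup, degreeOf_eq_sup]
      exact Finset.sup_mono (support_map_subset _ _)
    have h3 : red p Q = 0 := by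
      by_contra hQ
      have h4 := degreeOf_mul_X_self_pow_eq_add_of_ne_zero x0 (degreeOf x0 P + 1) hQ
      have h5 : red p Q * X x0 ^ (degreeOf x0 P + 1) = -red p P := by
        rw [eq_neg_iff_add_eq_zero, add_comm]; exact h1
      rw [h5, degreeOf_neg] at h4
      omega
    rw [h3, zero_mul, add_zero] at h1
    rcases hPQ with h | h
    · exact h h1
    · exact h h3
  · intro K _ c h
    by_contra hcon
    push Not at hcon
    apply h
    rw [map_add, map_mul, hcon.1, hcon.2]
    simp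

theorem comb {σ : Type} (x0 : σ) (s : Finset (MvPolynomial σ ℤ)) : ∃ R : MvPolynomial σ ℤ,
    (∀ p : ℕ, p.Prime → (∃ Q ∈ s, red p Q ≠ 0) → red p R ≠ 0) ∧
    ∀ (K : Type u) [Field K] (c : σ → K), aeval c R ≠ 0 → ∃ Q ∈ s, aeval c Q ≠ 0 := by
  classical
  induction s using Finset.induction_on with
  | empty =>
    refine ⟨0, ?_, ?_⟩
    · rintro p hp ⟨Q, hQ, _⟩
      simp at hQ
    · intro K _ c h
      simp at h
  | insert P s hP ih =>
    obtain ⟨R, hR1, hR2⟩ := ih
    obtain ⟨S, hS1, hS2⟩ := comb2.{u} x0 P R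
    refine ⟨S, ?_, ?_⟩
    · rintro p hp ⟨Q, hQ, hQ0⟩
      refine hS1 p hp ?_
      rcases Finset.mem_insert.1 hQ with rfl | hQs
      · exact Or.inl hQ0
      · exact Or.inr (hR1 p hp ⟨Q, hQs, hQ0⟩)
    · intro K _ c h
      rcases hS2 K c h with h1 | h1
      · exact ⟨P, Finset.mem_insert_self _ _, h1⟩
      · obtain ⟨Q, hQ, hQ0⟩ := hR2 K c h1
        exact ⟨Q, Finset.mem_insert_of_mem hQ, hQ0⟩

/-- the generic minor -/
noncomputable def gen {n d N : ℕ} (e : W n N → Row n d N) : MvPolynomial (Var n d) ℤ :=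
  mdet (fun k i j => X (k, i, j)) e

theorem aeval_gen {K : Type u} [Field K] {n d N : ℕ} (c : Var n d → K) (e : W n N → Row n d N) :
    aeval c (gen e) = mdet (fun k i j => c (k, i, j)) e := by
  unfold gen mdet
  rw [AlgHom.map_det]
  congr 1
  ext w w'
  change aeval c (ent (fun k i j => X (k, i, j)) (e w) w') = _
  unfold ent
  rw [map_sum]
  refine Finset.sum_congr rfl fun i _ => ?_
  rw [map_sum]
  refine Finset.sum_congr rfl fun j _ => ?_
  split_ifs
  · exact aeval_X _ _
  · exact map_zero _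

theorem red_ne_zero {σ : Type} (p : ℕ) (P : MvPolynomial σ ℤ) (c : σ → ZMod p)
    (h : aeval c P ≠ 0) : red p P ≠ 0 := by
  intro h0
  apply h
  have h1 : aeval c P = eval c (red p P) := by
    unfold red
    rw [aeval_def, eval₂_eq_eval_map]
    congr 2
  rw [h1, h0, map_zero]

/-- the generic quadratic algebra is nilpotent, uniformly in the field -/
theorem generic (n d N : ℕ) (hU : ∀ (p : ℕ) [Fact p.Prime],
      ∃ R : Fin d → Fin n → Fin n → ZMod p, Nil R N) (hd : 0 < d) (hN : 0 < N) :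
    ∃ P : MvPolynomial (Var n d) ℤ, (∀ p : ℕ, p.Prime → red p P ≠ 0) ∧
      ∀ (K : Type u) [Field K] (c : Var n d → K), aeval c P ≠ 0 →
        Nil (fun k i j => c (k, i, j)) N := by
  classical
  rcases Nat.eq_zero_or_pos n with rfl | hn
  · refine ⟨1, ?_, ?_⟩
    · intro p hp h
      have : Fact p.Prime := ⟨hp⟩
      unfold red at h
      rw [map_one] at h
      exact one_ne_zero h
    · intro K _ c _ f _ l hl
      match l, hl with
      | [], hl => simp at hl; omega
      | x :: _, _ => exact x.elim0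
  · let x0 : Var n d := (⟨0, hd⟩, ⟨0, hn⟩, ⟨0, hn⟩)
    let _ : Fintype (W n N → Row n d N) := Fintype.ofFinite _
    obtain ⟨P, hP1, hP2⟩ := comb.{u} x0 (Finset.univ.image (gen : (W n N → Row n d N) → _))
    refine ⟨P, ?_, ?_⟩
    · intro p hp
      have : Fact p.Prime := ⟨hp⟩
      obtain ⟨R, hR⟩ := hU p
      obtain ⟨e, he⟩ := det_of_nil _ hR
      refine hP1 p hp ⟨gen e, Finset.mem_image_of_mem _ (Finset.mem_univ e), ?_⟩
      refine red_ne_zero p _ (fun x => R x.1 x.2.1 x.2.2) ?_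
      rw [aeval_gen]
      exact he
    · intro K _ c h
      obtain ⟨Q, hQ, hQ0⟩ := hP2 K c h
      obtain ⟨e, _, rfl⟩ := Finset.mem_image.1 hQ
      rw [aeval_gen] at hQ0
      exact nil_of_det _ e hQ0

end Pool.Agent.Y162.GQ
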