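import Pool.Agent.Y162.GQ.Alg

/-!
# Nilpotency of generic quadratic algebras, with the number of relations as a parameter
-/

set_option autoImplicit false

namespace Pool.Agent.Y162.GQ

open Pool.Agent.TH40.Quad MvPolynomial

universe u

/-- the number `⌈φ_k n²⌉`, where `1 / φ_k = 4 cos² (π / (k + 1))` -/
noncomputable def gsNumber (n k : ℕ) : ℕ :=
  ⌈((n : ℝ) ^ 2 / (4 * Real.cos (Real.pi / ((k : ℝ) + 1)) ^ 2))⌉₊

/-- all products of `k` generators vanish in the quadratic algebra with the relations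
`∑ r l i j x_i x_j = 0` -/
def Kills {K : Type u} [Field K] {n d : ℕ} (k : ℕ) (r : Fin d → Fin n → Fin n → K) : Prop :=
  ∀ w : Fin k → Fin n,
    RingQuot.mkAlgHom K (fun a b : FreeAlgebra K (Fin n) =>
        (∃ l, a = ∑ i, ∑ j, r l i j • (FreeAlgebra.ι K i * FreeAlgebra.ι K j)) ∧ b = 0)
      (List.ofFn (fun t => FreeAlgebra.ι K (w t))).prod = 0

theorem kills_of_nil {K : Type u} [Field K] {n d : ℕ} (N k : ℕ)
    (r : Fin d → Fin n → Fin n → K) (hN0 : Nil r N) (hk : N ≤ k) : Kills k r := by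
  have hN : Nil r k := nil_mono r hN0 hk
  let RR : FreeAlgebra K (Fin n) → FreeAlgebra K (Fin n) → Prop := fun a b =>
        (∃ l, a = ∑ i, ∑ j, r l i j • (FreeAlgebra.ι K i * FreeAlgebra.ι K j)) ∧ b = 0
  let π : FreeAlgebra K (Fin n) →ₐ[K] RingQuot RR := RingQuot.mkAlgHom K RR
  let wd : List (Fin n) → RingQuot RR := fun l => π ((l.map (FreeAlgebra.ι K)).prod)
  have hrelz : ∀ l, π (∑ i, ∑ j, r l i j • (FreeAlgebra.ι K i * FreeAlgebra.ι K j)) = 0 := by
    intro l
    have : π (∑ i, ∑ j, r l i j • (FreeAlgebra.ι K i * FreeAlgebra.ι K j)) = π 0 :=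
      RingQuot.mkAlgHom_rel K (s := RR) ⟨⟨l, rfl⟩, rfl⟩
    rw [this, map_zero]
  have hwd : ∀ l l', wd (l ++ l') = wd l * wd l' := by
    intro l l'
    simp [wd]
  have hcons : ∀ x l, wd (x :: l) = π (FreeAlgebra.ι K x) * wd l := by
    intro x l
    simp [wd]
  have hzero : ∀ l : List (Fin n), l.length = k → wd l = 0 := by
    intro l hl
    rw [← Module.forall_dual_apply_eq_zero_iff K]
    intro φ
    refine hN (fun l => φ (wd l)) ?_ l hl
    intro k l₁ l₂ _
    have h1 : ∀ i j, φ (wd (l₁ ++ i :: j :: l₂)) =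
        (φ.comp ((LinearMap.mulLeft K (wd l₁)).comp ((LinearMap.mulRight K (wd l₂)).comp
          π.toLinearMap))) (FreeAlgebra.ι K i * FreeAlgebra.ι K j) := by
      intro i j
      rw [hwd, hcons, hcons]
      simp [mul_assoc]
    have h2 : ev (V := K) (fun i j => r k i j) (fun i j => φ (wd (l₁ ++ i :: j :: l₂))) =
        (φ.comp ((LinearMap.mulLeft K (wd l₁)).comp ((LinearMap.mulRight K (wd l₂)).comp
          π.toLinearMap))) (∑ i, ∑ j, r k i j • (FreeAlgebra.ι K i * FreeAlgebra.ι K j)) := by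
      change _ = (φ.comp ((LinearMap.mulLeft K (wd l₁)).comp ((LinearMap.mulRight K (wd l₂)).comp
          π.toLinearMap))) (ev (fun i j => r k i j)
            (fun i j => FreeAlgebra.ι K i * FreeAlgebra.ι K j))
      rw [ev_map]
      exact ev_congr _ _ _ h1
    have h5 : ev (V := K) (r k) (fun i j => φ (wd (l₁ ++ i :: j :: l₂))) =
        ev (V := K) (fun i j => r k i j) (fun i j => φ (wd (l₁ ++ i :: j :: l₂))) := rfl
    rw [h5, h2]
    change φ (wd l₁ * (π (∑ i, ∑ j, r k i j • (FreeAlgebra.ι K i * FreeAlgebra.ι K j)) * wd l₂)) = 0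
    rw [hrelz, zero_mul, mul_zero, map_zero]
  intro w
  have h3 := hzero (List.ofFn w) (by simp)
  have h4 : (List.ofFn w).map (FreeAlgebra.ι K) = List.ofFn fun s => FreeAlgebra.ι K (w s) := by
    rw [List.map_ofFn]
    rfl
  change π ((List.ofFn fun s => FreeAlgebra.ι K (w s)).prod) = 0
  rw [← h4]
  exact h3

theorem gsNumber_bounds (n k : ℕ) (hn : 1 ≤ n) (hk : 2 ≤ k) :
    n ^ 2 < 4 * gsNumber n k ∧ gsNumber n k ≤ n ^ 2 := by
  have hk' : (2 : ℝ) ≤ k := by exact_mod_cast hk
  have hn' : (1 : ℝ) ≤ n := by exact_mod_cast hn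
  have h0 : 0 < Real.pi / ((k : ℝ) + 1) := by positivity
  have h1 : Real.pi / ((k : ℝ) + 1) ≤ Real.pi / 3 :=
    div_le_div_of_nonneg_left Real.pi_pos.le (by norm_num) (by linarith)
  have h2 : 1 / 2 ≤ Real.cos (Real.pi / ((k : ℝ) + 1)) := by
    rw [← Real.cos_pi_div_three]
    exact Real.cos_le_cos_of_nonneg_of_le_pi h0.le (by linarith [Real.pi_pos]) h1
  have h3 : Real.cos (Real.pi / ((k : ℝ) + 1)) < 1 := by
    have h30 := Real.cos_lt_cos_of_nonneg_of_le_pi le_rfl (by linarith [Real.pi_pos]) h0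
    rwa [Real.cos_zero] at h30
  obtain ⟨c, hc⟩ : ∃ c, c = Real.cos (Real.pi / ((k : ℝ) + 1)) := ⟨_, rfl⟩
  rw [← hc] at h2 h3
  have h4 : 1 ≤ 4 * c ^ 2 := by nlinarith
  have h5 : c ^ 2 < 1 := by nlinarith
  have hn2 : (0 : ℝ) < (n : ℝ) ^ 2 := by positivity
  unfold gsNumber
  rw [← hc]
  constructor
  · have h6 : (n : ℝ) ^ 2 / (4 * c ^ 2) ≤ ⌈(n : ℝ) ^ 2 / (4 * c ^ 2)⌉₊ := Nat.le_ceil _
    have h7 : (n : ℝ) ^ 2 < 4 * ((n : ℝ) ^ 2 / (4 * c ^ 2)) := by
      have e : 4 * ((n : ℝ) ^ 2 / (4 * c ^ 2)) = (n : ℝ) ^ 2 / c ^ 2 := by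
        field_simp
      rw [e, lt_div_iff₀ (by nlinarith)]
      nlinarith
    have h8 : (n : ℝ) ^ 2 < 4 * (⌈(n : ℝ) ^ 2 / (4 * c ^ 2)⌉₊ : ℝ) := by linarith
    exact_mod_cast h8
  · rw [Nat.ceil_le]
    push_cast
    exact div_le_self hn2.le h4

/-- the generic statement for a given number of relations -/
theorem nilmain (n d : ℕ) (h : n ^ 2 < 4 * d) :
    ∃ (N C : ℕ) (P : MvPolynomial (Fin d × Fin n × Fin n) ℤ),
      (∀ p : ℕ, p.Prime → P.map (Int.castRingHom (ZMod p)) ≠ 0) ∧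
      (∀ (K : Type u) [Field K] (c : Fin d × Fin n × Fin n → K),
        aeval c P ≠ 0 → Nil (fun l i j => c (l, i, j)) N) ∧
      (∀ (K : Type u) [Field K], ∃ R : Fin d → Fin n → Fin n → K,
        (d ≤ n ^ 2 → LinearIndependent K R) ∧ Nil R N) ∧
      (∀ (K : Type u) [Field K] [Finite K],
        Nat.card {c : Fin d × Fin n × Fin n → K // aeval c P = 0} * Nat.card K ≤
          C * Nat.card (Fin d × Fin n × Fin n → K)) := by
  have hd : 0 < d := by omega
  obtain ⟨N1, hN1⟩ := uniform.{u} n d h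
  obtain ⟨N2, hN2⟩ := uniform.{0} n d h
  obtain ⟨N, hN⟩ : ∃ N, N = max N1 N2 + 1 := ⟨_, rfl⟩
  have hA : ∀ (K : Type u) [Field K], ∃ R : Fin d → Fin n → Fin n → K, Nil R N := by
    intro K _
    obtain ⟨R, hR⟩ := hN1 K
    exact ⟨R, nil_mono R hR (by rw [hN]; exact (le_max_left _ _).trans (Nat.le_succ _))⟩
  obtain ⟨P, hP1, hP2⟩ := generic.{u} n d N (fun p _ => by
    obtain ⟨R, hR⟩ := hN2 (ZMod p)
    exact ⟨R, nil_mono R hR (by rw [hN]; exact (le_max_right _ _).trans (Nat.le_succ _))⟩)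
    hd (by omega)
  refine ⟨N, P.totalDegree, P, hP1, hP2, ?_, ?_⟩
  · intro K _
    obtain ⟨R, hR⟩ := hA K
    exact family_of_nil R N hR
  · intro K _ _
    have hPK : P.map (Int.castRingHom K) ≠ 0 := by
      obtain ⟨p, hp⟩ := CharP.exists K
      have hpp : p.Prime := by
        rcases CharP.char_is_prime_or_zero K p with h1 | h1
        · exact h1
        · subst h1
          have : CharZero K := CharP.charP_to_charZero K
          exact absurd (Infinite.of_injective (Nat.cast : ℕ → K) Nat.cast_injective)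
            (not_infinite_iff_finite.2 inferInstance)
      have : Fact p.Prime := ⟨hpp⟩
      intro h0
      apply hP1 p hpp
      have h2 : (P.map (Int.castRingHom (ZMod p))).map (ZMod.castHom dvd_rfl K) = 0 := by
        have e : (ZMod.castHom (dvd_refl p) K).comp (Int.castRingHom (ZMod p)) =
            Int.castRingHom K := RingHom.ext_int _ _
        rw [map_map, e, h0]
      have h3 := map_injective (σ := Fin d × Fin n × Fin n) (ZMod.castHom (dvd_refl p) K)
        (ZMod.castHom dvd_rfl K).injective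
      exact h3 (h2.trans (map_zero _).symm)
    have h1 := sz (P.map (Int.castRingHom K)) hPK
    have h2 : (P.map (Int.castRingHom K)).totalDegree ≤ P.totalDegree := by
      unfold totalDegree
      exact Finset.sup_mono (support_map_subset _ _)
    have h3 : Nat.card {c : Fin d × Fin n × Fin n → K // aeval c P = 0} ≤
        Nat.card {c : Fin d × Fin n × Fin n → K // eval c (P.map (Int.castRingHom K)) = 0} := by
      have h4 : ∀ c : Fin d × Fin n × Fin n → K, aeval c P = 0 →
          eval c (P.map (Int.castRingHom K)) = 0 := by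
        intro c hc
        rw [eval_map, ← hc, aeval_def]
        congr 1
      exact Nat.card_le_card_of_injective (Subtype.map id h4)
        (Subtype.map_injective h4 Function.injective_id)
    calc _ ≤ Nat.card {c : Fin d × Fin n × Fin n → K //
          eval c (P.map (Int.castRingHom K)) = 0} * Nat.card K := Nat.mul_le_mul_right _ h3
      _ ≤ _ := h1.trans (Nat.mul_le_mul_right _ h2)

end Pool.Agent.Y162.GQ
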